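import Mathlib
import Pool.Agent.Lib_755967.Final

set_option autoImplicit false

open MeasureTheory ProbabilityTheory Real
open scoped ENNReal

namespace Pool.Agent.Lib_MP_755967_pr_ins

open Pool.Agent.Lib_755967

/-- quantitative disorder chaos -/
lemma chaos_rate {N : ℕ} (hN : 0 < N) {β : ℝ} (n : ℕ) :
    ∀ ρ : ℝ, 0 ≤ ρ → ρ < 1 → β ^ 2 * ρ ^ (2 ^ n) ≤ 1 / 4 →
      BB N β ρ ≤ (β ^ 2 / 2 * N) * (8 / N : ℝ) ^ ((1 : ℝ) / (2 : ℝ) ^ n) := by
  have hN' : (0 : ℝ) < N := by exact_mod_cast hN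
  have h8 : (0 : ℝ) < 8 / N := by positivity
  induction n with
  | zero =>
    intro ρ h0 h1 h2
    rw [pow_zero, pow_one] at h2
    refine (BB_small hN h0 h1.le h2).trans (le_of_eq ?_)
    rw [pow_zero, div_one, Real.rpow_one]
    field_simp
    ring
  | succ n ih =>
    intro ρ h0 h1 h2
    have h3 : ρ ^ 2 < 1 := by nlinarith
    have h4 : β ^ 2 * (ρ ^ 2) ^ (2 ^ n) ≤ 1 / 4 := by
      have h40 : 2 ^ (n + 1) = 2 * 2 ^ n := by ring
      rw [← pow_mul, ← h40]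
      exact h2
    set y : ℝ := (8 / N : ℝ) ^ ((1 : ℝ) / (2 : ℝ) ^ (n + 1)) with hy
    have hypos : 0 < y := Real.rpow_pos_of_pos h8 _
    have hyy : (8 / N : ℝ) ^ ((1 : ℝ) / (2 : ℝ) ^ n) = y * y := by
      rw [hy, ← Real.rpow_add h8]
      congr 1
      rw [pow_succ]
      field_simp
      norm_num
    have h5 := BB_rec hN (β := β) h0 h1 hypos
    have h6 := ih (ρ ^ 2) (by positivity) h3 h4
    rw [hyy] at h6
    refine h5.trans ?_
    have h7 : 1 / (2 * y) * BB N β (ρ ^ 2) ≤ 1 / (2 * y) * ((β ^ 2 / 2 * N) * (y * y)) :=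
      mul_le_mul_of_nonneg_left h6 (by positivity)
    have h8' : 1 / (2 * y) * ((β ^ 2 / 2 * N) * (y * y)) = y / 2 * (β ^ 2 / 2 * N) := by
      field_simp
    rw [h8'] at h7
    linarith

/-- the bound with a power of two -/
lemma rate_pow {N : ℕ} (hN : 0 < N) {β b : ℝ} (hβ : 0 < β) (hb : 0 < b) {n : ℕ} (hn : 1 ≤ n) :
    log (∫ x, rexp (-b * L (0 : (Fin N → Fin 2) → ℝ) (vSK N β) x) ∂(gam (Fin N × Fin N))) +
      b * EF β N ≤
    b * N * ((1 + 4 * β ^ 2) * (2 * β ^ 4 * (1 / (2 : ℝ) ^ n) +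
      β ^ 2 / 2 * (b * (8 / N : ℝ) ^ ((1 : ℝ) / (2 : ℝ) ^ n)))) := by
  have hN' : (0 : ℝ) < N := by exact_mod_cast hN
  set t : ℝ := (2 : ℝ) ^ n with ht
  have ht2 : 2 ≤ t := by
    have := pow_le_pow_right₀ (show (1 : ℝ) ≤ 2 by norm_num) hn
    rw [pow_one] at this
    exact this
  have ht0 : 0 < t := by linarith
  set κ : ℝ := 2 * log (1 + 4 * β ^ 2) with hκ
  have hb2 : 0 < β ^ 2 := by positivity
  have hlog0 : 0 < log (1 + 4 * β ^ 2) := Real.log_pos (by linarith)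
  have hκ0 : 0 < κ := by rw [hκ]; linarith
  have hκ8 : κ ≤ 8 * β ^ 2 := by
    have := Real.log_le_sub_one_of_pos (show 0 < 1 + 4 * β ^ 2 by positivity)
    rw [hκ]; linarith
  set c : ℝ := rexp (-(κ / (2 * t))) with hc
  have hc0 : 0 < c := exp_pos _
  have hc1 : c < 1 := by
    rw [hc, Real.exp_lt_one_iff]
    have : 0 < κ / (2 * t) := by positivity
    linarith
  have hcc : c ^ 2 = rexp (-(κ / t)) := by
    rw [hc, ← Real.exp_nat_mul]
    congr 1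
    field_simp
    norm_num
  have hρ1 : c ^ 2 < 1 := by nlinarith
  have hρ0 : 0 < c ^ 2 := by positivity
  -- inverse of rho
  have hinv : 1 / c ^ 2 ≤ 1 + 4 * β ^ 2 := by
    rw [hcc, one_div, ← Real.exp_neg, neg_neg]
    calc rexp (κ / t) ≤ rexp (κ / 2) := by
          rw [Real.exp_le_exp]
          exact div_le_div_of_nonneg_left hκ0.le (by norm_num) ht2
      _ = 1 + 4 * β ^ 2 := by
          rw [hκ, mul_div_cancel_left₀ _ (by norm_num : (2 : ℝ) ≠ 0), Real.exp_log (by positivity)]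
  have hone : 1 - c ^ 2 ≤ 8 * β ^ 2 * (1 / t) := by
    have h1 := Real.add_one_le_exp (-(κ / t))
    rw [← hcc] at h1
    have h2 : κ / t ≤ 8 * β ^ 2 * (1 / t) := by
      rw [mul_one_div]
      exact div_le_div_of_nonneg_right hκ8 ht0.le
    linarith
  -- the smallness condition
  have hsmall : (β / c) ^ 2 * (c ^ 2) ^ (2 ^ n) ≤ 1 / 4 := by
    have h1 : (β / c) ^ 2 * (c ^ 2) ^ (2 ^ n) = β ^ 2 * (c ^ 2) ^ (2 ^ n - 1) := by
      obtain ⟨k, hk⟩ : ∃ k, 2 ^ n = k + 1 := ⟨2 ^ n - 1, (Nat.sub_add_cancel Nat.one_le_two_pow).symm⟩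
      rw [hk, Nat.add_sub_cancel, div_pow]
      field_simp
      ring
    have h2 : (c ^ 2) ^ (2 ^ n - 1) ≤ rexp (-(κ / 2)) := by
      rw [hcc, ← Real.exp_nat_mul, Real.exp_le_exp]
      have h3 : ((2 ^ n - 1 : ℕ) : ℝ) = t - 1 := by
        rw [Nat.cast_sub Nat.one_le_two_pow]
        push_cast
        rfl
      rw [h3]
      have h4 : (1 : ℝ) / 2 ≤ (t - 1) / t := by
        rw [div_le_div_iff₀ (by norm_num) ht0]
        linarith
      have h5 : (t - 1) * -(κ / t) = -(κ * ((t - 1) / t)) := by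
        field_simp
      rw [h5]
      have h6 : κ * (1 / 2) ≤ κ * ((t - 1) / t) := mul_le_mul_of_nonneg_left h4 hκ0.le
      linarith
    have h3 : rexp (-(κ / 2)) = 1 / (1 + 4 * β ^ 2) := by
      rw [hκ, mul_div_cancel_left₀ _ (by norm_num : (2 : ℝ) ≠ 0), Real.exp_neg,
        Real.exp_log (by positivity), one_div]
    rw [h1]
    calc β ^ 2 * (c ^ 2) ^ (2 ^ n - 1) ≤ β ^ 2 * (1 / (1 + 4 * β ^ 2)) := by
          rw [← h3]
          exact mul_le_mul_of_nonneg_left h2 hb2.le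
      _ ≤ 1 / 4 := by
          rw [mul_one_div, div_le_div_iff₀ (by positivity) (by norm_num)]
          linarith
  have key := neg_moment_SK hN β hb hc0 hc1
  have hch := chaos_rate hN n (c ^ 2) hρ0.le hρ1 hsmall
  set y : ℝ := (8 / N : ℝ) ^ ((1 : ℝ) / t) with hy
  have hy0 : 0 < y := Real.rpow_pos_of_pos (by positivity) _
  have e1 : b * ((1 - c ^ 2) * ((β / c) ^ 2 / 2 * N) / 2) =
      b * N * ((1 - c ^ 2) * (β ^ 2 / 4 * (1 / c ^ 2))) := by
    rw [div_pow]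
    ring
  have e2 : (β / c) ^ 2 / 2 * N * y = N * (β ^ 2 / 2 * (1 / c ^ 2) * y) := by
    rw [div_pow]
    ring
  have h1 : (1 - c ^ 2) * (β ^ 2 / 4 * (1 / c ^ 2)) ≤
      8 * β ^ 2 * (1 / t) * (β ^ 2 / 4 * (1 + 4 * β ^ 2)) := by
    refine mul_le_mul hone ?_ (by positivity) (by positivity)
    exact mul_le_mul_of_nonneg_left hinv (by positivity)
  have h2 : β ^ 2 / 2 * (1 / c ^ 2) * y ≤ β ^ 2 / 2 * (1 + 4 * β ^ 2) * y := by
    refine mul_le_mul_of_nonneg_right ?_ hy0.le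
    exact mul_le_mul_of_nonneg_left hinv (by positivity)
  rw [e2] at hch
  rw [e1] at key
  have h3 : b ^ 2 * BB N (β / c) (c ^ 2) ≤ b ^ 2 * (N * (β ^ 2 / 2 * (1 + 4 * β ^ 2) * y)) :=
    mul_le_mul_of_nonneg_left (hch.trans (mul_le_mul_of_nonneg_left h2 hN'.le)) (by positivity)
  have h4 : b * N * ((1 - c ^ 2) * (β ^ 2 / 4 * (1 / c ^ 2))) ≤
      b * N * (8 * β ^ 2 * (1 / t) * (β ^ 2 / 4 * (1 + 4 * β ^ 2))) :=
    mul_le_mul_of_nonneg_left h1 (by positivity)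
  have e3 : b * N * ((1 + 4 * β ^ 2) * (2 * β ^ 4 * (1 / t) + β ^ 2 / 2 * (b * y))) =
      b * N * (8 * β ^ 2 * (1 / t) * (β ^ 2 / 4 * (1 + 4 * β ^ 2))) +
      b ^ 2 * (N * (β ^ 2 / 2 * (1 + 4 * β ^ 2) * y)) := by
    ring
  rw [e3]
  linarith

/-- the bound with a real parameter -/
lemma rate {N : ℕ} (hN : 0 < N) {β b s : ℝ} (hβ : 0 < β) (hb : 0 < b) (hs : 0 < s)
    (hs2 : s ≤ 1 / 2) :
    log (∫ x, rexp (-b * L (0 : (Fin N → Fin 2) → ℝ) (vSK N β) x) ∂(gam (Fin N × Fin N))) +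
      b * EF β N ≤
    b * N * ((1 + 4 * β ^ 2) ^ 3 * (s + b * (N : ℝ) ^ (-s))) := by
  have hN' : (0 : ℝ) < N := by exact_mod_cast hN
  have hN1 : (1 : ℝ) ≤ N := by exact_mod_cast hN
  obtain ⟨n, hn1, hn2⟩ : ∃ n : ℕ, (2 : ℝ) ^ n ≤ 1 / s ∧ 1 / s < (2 : ℝ) ^ (n + 1) := by
    have h1 : 1 ≤ 1 / s := by
      rw [le_div_iff₀ hs]; linarith
    exact exists_nat_pow_near h1 (by norm_num)
  have hn : 1 ≤ n := by
    by_contra h
    have h0 : n = 0 := by omega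
    subst h0
    rw [zero_add, pow_one, div_lt_iff₀ hs] at hn2
    linarith
  have hpow : (0 : ℝ) < 2 ^ n := by positivity
  have hle : s ≤ 1 / (2 : ℝ) ^ n := by
    rw [le_div_iff₀ hpow]
    rw [le_div_iff₀ hs] at hn1
    linarith
  have hlt : 1 / (2 : ℝ) ^ n ≤ 2 * s := by
    rw [div_le_iff₀ hpow]
    rw [div_lt_iff₀ hs, pow_succ] at hn2
    linarith
  have hhalf : 1 / (2 : ℝ) ^ n ≤ 1 / 2 := by
    have := pow_le_pow_right₀ (show (1 : ℝ) ≤ 2 by norm_num) hn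
    rw [pow_one] at this
    exact one_div_le_one_div_of_le (by norm_num) this
  refine (rate_pow hN hβ hb hn).trans ?_
  have hy : (8 / N : ℝ) ^ ((1 : ℝ) / (2 : ℝ) ^ n) ≤ 3 * (N : ℝ) ^ (-s) := by
    rw [Real.div_rpow (by norm_num) hN'.le, div_eq_mul_inv, ← Real.rpow_neg hN'.le]
    refine mul_le_mul ?_ ?_ (Real.rpow_nonneg hN'.le _) (by norm_num)
    · calc (8 : ℝ) ^ ((1 : ℝ) / (2 : ℝ) ^ n) ≤ (8 : ℝ) ^ ((1 : ℝ) / 2) :=
            Real.rpow_le_rpow_of_exponent_le (by norm_num) hhalf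
        _ ≤ (9 : ℝ) ^ ((1 : ℝ) / 2) := Real.rpow_le_rpow (by norm_num) (by norm_num) (by norm_num)
        _ = 3 := by
            rw [show (9 : ℝ) = 3 ^ (2 : ℝ) by norm_num, ← Real.rpow_mul (by norm_num)]
            norm_num
    · exact Real.rpow_le_rpow_of_exponent_le hN1 (by linarith)
  set y : ℝ := (8 / N : ℝ) ^ ((1 : ℝ) / (2 : ℝ) ^ n) with hydef
  set z : ℝ := (N : ℝ) ^ (-s) with hz
  have hz0 : 0 ≤ z := Real.rpow_nonneg hN'.le _
  refine mul_le_mul_of_nonneg_left ?_ (by positivity)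
  set A : ℝ := 1 + 4 * β ^ 2 with hA
  have hA1 : 1 ≤ A := by rw [hA]; nlinarith [sq_nonneg β]
  have hβA : β ^ 2 = (A - 1) / 4 := by rw [hA]; ring
  have hβA4 : β ^ 4 = (A - 1) ^ 2 / 16 := by
    have : β ^ 4 = (β ^ 2) ^ 2 := by ring
    rw [this, hβA]; ring
  have h1 : 2 * β ^ 4 * (1 / (2 : ℝ) ^ n) ≤ A ^ 2 * s := by
    calc 2 * β ^ 4 * (1 / (2 : ℝ) ^ n) ≤ 2 * β ^ 4 * (2 * s) :=
          mul_le_mul_of_nonneg_left hlt (by positivity)
      _ = (A - 1) ^ 2 / 4 * s := by rw [hβA4]; ring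
      _ ≤ A ^ 2 * s := by
          refine mul_le_mul_of_nonneg_right ?_ hs.le
          nlinarith
  have h2 : β ^ 2 / 2 * (b * y) ≤ A ^ 2 * (b * z) := by
    calc β ^ 2 / 2 * (b * y) ≤ β ^ 2 / 2 * (b * (3 * z)) := by
          refine mul_le_mul_of_nonneg_left ?_ (by positivity)
          exact mul_le_mul_of_nonneg_left hy hb.le
      _ = (A - 1) * 3 / 8 * (b * z) := by rw [hβA]; ring
      _ ≤ A ^ 2 * (b * z) := by
          refine mul_le_mul_of_nonneg_right ?_ (by positivity)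
          nlinarith
  calc A * (2 * β ^ 4 * (1 / (2 : ℝ) ^ n) + β ^ 2 / 2 * (b * y))
      ≤ A * (A ^ 2 * s + A ^ 2 * (b * z)) :=
        mul_le_mul_of_nonneg_left (by linarith) (by linarith)
    _ = A ^ 3 * (s + b * z) := by ring

end Pool.Agent.Lib_MP_755967_pr_ins
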